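import Pool.Agent.E8helper30.MC.Stm

/-!
# Project MC (helper30), piece SW: the switching lemma
-/

set_option autoImplicit false

namespace Pool.Agent.E8helper54.MC

open scoped Classical
open Pool.Agent.E8helper30.MC

theorem t_SW : S_SW := by
  intro α β I J A a b v j hAI hAa hxb
  set uc : Finset α → Finset α := fun C => C.filter fun c => ∃ g ∈ J, A g ∩ C = {c} with huc
  set Ω : Finset (Finset α) := I.powerset.filter fun C => (∀ g ∈ J, (A g ∩ C).Nonempty) ∧
    v ≤ (uc C).card with hΩ
  set U : Finset α → Finset β := fun D => J.filter fun g => A g ∩ D = ∅ with hU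
  set Y : Finset α → Finset α := fun D => (U D).biUnion A with hY
  set P : Finset (Σ _ : Finset α, Finset α) := Ω.sigma fun C => (uc C).powersetCard j with hP
  set Q : Finset (Σ _ : Finset α, Finset α) :=
    (I.powerset.filter fun D => (Y D).card ≤ j * b * a).sigma
      fun D => (Y D).powersetCard j with hQ
  have h1 : Ω.card * v.choose j ≤ P.card := by
    rw [hP, Finset.card_sigma, ← smul_eq_mul, ← Finset.sum_const]
    refine Finset.sum_le_sum fun C hC => ?_
    rw [Finset.card_powersetCard]
    exact Nat.choose_le_choose j (Finset.mem_filter.1 hC).2.2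
  have h2 : Q.card ≤ 2 ^ I.card * (j * b * a).choose j := by
    rw [hQ, Finset.card_sigma]
    calc ∑ D ∈ I.powerset.filter (fun D => (Y D).card ≤ j * b * a),
          ((Y D).powersetCard j).card
        ≤ ∑ D ∈ I.powerset.filter (fun D => (Y D).card ≤ j * b * a), (j * b * a).choose j := by
          refine Finset.sum_le_sum fun D hD => ?_
          rw [Finset.card_powersetCard]
          exact Nat.choose_le_choose j (Finset.mem_filter.1 hD).2
      _ = (I.powerset.filter (fun D => (Y D).card ≤ j * b * a)).card * (j * b * a).choose j := by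
          rw [Finset.sum_const, smul_eq_mul]
      _ ≤ 2 ^ I.card * (j * b * a).choose j := by
          apply Nat.mul_le_mul_right
          rw [← Finset.card_powerset]
          exact Finset.card_filter_le _ _
  refine h1.trans (le_trans ?_ h2)
  apply Finset.card_le_card_of_injOn (fun z => ⟨z.1 \ z.2, z.2⟩)
  · rintro ⟨C, S⟩ hz
    have hz' : C ∈ Ω ∧ S ∈ (uc C).powersetCard j := Finset.mem_sigma.1 hz
    obtain ⟨hC, hS⟩ := hz'
    obtain ⟨hCI, hne, -⟩ := Finset.mem_filter.1 hC
    rw [Finset.mem_powerset] at hCI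
    obtain ⟨hSu, hSj⟩ := Finset.mem_powersetCard.1 hS
    have hUD : (U (C \ S)).card ≤ j * b := by
      have hsub : U (C \ S) ⊆ S.biUnion (fun x => J.filter fun g => x ∈ A g) := by
        intro g hg
        obtain ⟨hgJ, hg0⟩ := Finset.mem_filter.1 hg
        obtain ⟨x, hx⟩ := hne g hgJ
        obtain ⟨hxA, hxC⟩ := Finset.mem_inter.1 hx
        have hxS : x ∈ S := by
          by_contra hxS
          have : x ∈ A g ∩ (C \ S) := Finset.mem_inter.2 ⟨hxA, Finset.mem_sdiff.2 ⟨hxC, hxS⟩⟩
          rw [hg0] at this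
          simp at this
        exact Finset.mem_biUnion.2 ⟨x, hxS, Finset.mem_filter.2 ⟨hgJ, hxA⟩⟩
      refine (Finset.card_le_card hsub).trans ?_
      rw [← hSj]
      refine Finset.card_biUnion_le_card_mul _ _ _ fun x hx => ?_
      exact hxb x (hCI (Finset.mem_filter.1 (hSu hx)).1)
    have hYD : (Y (C \ S)).card ≤ j * b * a := by
      refine (Finset.card_biUnion_le_card_mul _ _ a fun g hg => ?_).trans
        (Nat.mul_le_mul_right a hUD)
      exact hAa g (Finset.mem_filter.1 hg).1
    have hSY : S ⊆ Y (C \ S) := by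
      intro c hc
      obtain ⟨hcC, g, hgJ, hg⟩ := Finset.mem_filter.1 (hSu hc)
      have hcA : c ∈ A g := by
        have : c ∈ A g ∩ C := by rw [hg]; exact Finset.mem_singleton_self c
        exact (Finset.mem_inter.1 this).1
      refine Finset.mem_biUnion.2 ⟨g, Finset.mem_filter.2 ⟨hgJ, ?_⟩, hcA⟩
      rw [Finset.eq_empty_iff_forall_notMem]
      intro x hx
      obtain ⟨hxA, hxD⟩ := Finset.mem_inter.1 hx
      obtain ⟨hxC, hxS⟩ := Finset.mem_sdiff.1 hxD
      have : x ∈ A g ∩ C := Finset.mem_inter.2 ⟨hxA, hxC⟩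
      rw [hg, Finset.mem_singleton] at this
      exact hxS (this ▸ hc)
    have hfin : (⟨C \ S, S⟩ : Σ _ : Finset α, Finset α) ∈ Q :=
      Finset.mem_sigma.2 ⟨Finset.mem_filter.2
        ⟨Finset.mem_powerset.2 (Finset.sdiff_subset.trans hCI), hYD⟩,
        Finset.mem_powersetCard.2 ⟨hSY, hSj⟩⟩
    exact hfin
  · rintro ⟨C, S⟩ hz ⟨C', S'⟩ hz' heq
    have hS : S ⊆ C := by
      have h3 : S ∈ (uc C).powersetCard j := (Finset.mem_sigma.1 hz).2
      exact (Finset.mem_powersetCard.1 h3).1.trans (Finset.filter_subset _ _)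
    have hS' : S' ⊆ C' := by
      have h3 : S' ∈ (uc C').powersetCard j := (Finset.mem_sigma.1 hz').2
      exact (Finset.mem_powersetCard.1 h3).1.trans (Finset.filter_subset _ _)
    simp only [Sigma.mk.injEq, heq_eq_eq] at heq
    obtain ⟨e1, e2⟩ := heq
    subst e2
    have e3 : C = C' := by
      rw [← Finset.sdiff_union_of_subset hS, e1, Finset.sdiff_union_of_subset hS']
    subst e3
    rfl

end Pool.Agent.E8helper54.MC
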